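import Pool.Graph.R_seed8.TH740.GF.VQ
import Pool.Graph.R_seed8.TH321.GF.AQ

set_option autoImplicit false

/-! Second moment of zeta, from the second moment of the partial sum. -/

namespace Pool.Agent.H3.SQ

open Complex Filter Topology MeasureTheory Set
open Pool.Agent.TH612.CF Pool.Agent.TH612.GS

noncomputable section

theorem t_SM (hVQ : S_VQ) : S_SM := by
  obtain ⟨C3, T3, hC3, hT3, h3⟩ := hVQ
  refine ⟨2 * C3 + 200, max 3 T3, by positivity, (by norm_num : (2:ℝ) ≤ 3).trans (le_max_left _ _),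
    fun T hT => ?_⟩
  have hT3' : 3 ≤ T := (le_max_left _ _).trans hT
  have hTT3 : T3 ≤ T := (le_max_right _ _).trans hT
  have hT0 : 0 < T := by linarith
  have hlog : 1 ≤ Real.log T := by
    rw [Real.le_log_iff_exp_le hT0]
    exact (Real.exp_one_lt_d9.le.trans (by norm_num)).trans hT3'
  obtain ⟨X, hX⟩ : ∃ X : ℕ, X = ⌈2 * T⌉₊ := ⟨_, rfl⟩
  have hX1 : 2 * T ≤ X := by rw [hX]; exact Nat.le_ceil _
  have hX2 : (X : ℝ) ≤ 4 * T := by
    have := Nat.ceil_lt_add_one (a := 2 * T) (by linarith)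
    rw [hX]; linarith
  have hXr : (1:ℝ) ≤ X := by linarith
  have hXn : 1 ≤ X := by exact_mod_cast hXr
  have hV := h3 T X hTT3 hXn hX2
  set q := Real.sqrt X with hq
  have hq2 : q ^ 2 = X := Real.sq_sqrt (by linarith)
  have hq0 : 0 < q := Real.sqrt_pos.2 (by linarith)
  have hpw : ∀ u ∈ Ioc (0:ℝ) (2 * T), ‖z u‖ ^ 2 ≤ 2 * ‖PN X u‖ ^ 2 + (36 * X * (1 + u) ^ (-2 : ℤ) + 9) := by
    intro u hu
    have hb := Pool.Agent.TH321.GF.AQ_pw u X hXn hu.1 (hu.2.trans hX1)
    rw [← hq] at hb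
    have hu1 : 0 < 1 + u := by linarith [hu.1]
    have t1 : ‖z u‖ ≤ ‖PN X u‖ + ‖z u - PN X u‖ := by
      have := norm_add_le (PN X u) (z u - PN X u)
      rwa [add_sub_cancel] at this
    have t2 : ‖z u‖ ^ 2 ≤ 2 * ‖PN X u‖ ^ 2 + 2 * ‖z u - PN X u‖ ^ 2 := by
      have h0 := norm_nonneg (z u)
      nlinarith [sq_nonneg (‖PN X u‖ - ‖z u - PN X u‖), pow_le_pow_left₀ h0 t1 2]
    have t3 : ‖z u - PN X u‖ ^ 2 ≤ 2 * (3 * q / (1 + u)) ^ 2 + 2 * (3 / (2 * q)) ^ 2 := by
      have h0 := norm_nonneg (z u - PN X u)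
      nlinarith [sq_nonneg (3 * q / (1 + u) - 3 / (2 * q)), pow_le_pow_left₀ h0 hb 2]
    have t4 : (3 * q / (1 + u)) ^ 2 = 9 * X * (1 + u) ^ (-2 : ℤ) := by
      rw [div_pow, mul_pow, hq2, zpow_neg]
      norm_cast
    have t5 : (3 / (2 * q)) ^ 2 ≤ 9 / 4 := by
      rw [div_pow, mul_pow, hq2]
      rw [div_le_iff₀ (by positivity)]
      nlinarith
    rw [t4] at t3
    linarith
  have hzc : Continuous fun u : ℝ => ‖z u‖ ^ 2 := z_cont.norm.pow 2
  have hPc : Continuous fun u : ℝ => ‖PN X u‖ ^ 2 := (PN_cont X).norm.pow 2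
  have hinv : IntervalIntegrable (fun u : ℝ => (1 + u) ^ (-2 : ℤ)) volume 0 (2 * T) := by
    refine ContinuousOn.intervalIntegrable ?_
    intro u hu
    rw [uIcc_of_le (by linarith)] at hu
    refine ContinuousAt.continuousWithinAt ?_
    refine ContinuousAt.zpow₀ (by fun_prop) _ (Or.inl ?_)
    linarith [hu.1]
  have hintv : ∫ u in (0:ℝ)..(2 * T), (1 + u) ^ (-2 : ℤ) ≤ 1 := by
    rw [intervalIntegral.integral_comp_add_left (fun x => x ^ (-2 : ℤ)) 1, integral_zpow]
    · norm_num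
      have : 0 < (1 + 2 * T)⁻¹ := by positivity
      linarith
    · right
      refine ⟨by norm_num, ?_⟩
      rw [uIcc_of_le (by linarith)]
      rintro ⟨h1, -⟩
      linarith
  calc ∫ u in (0:ℝ)..(2 * T), ‖z u‖ ^ 2
      ≤ ∫ u in (0:ℝ)..(2 * T), (2 * ‖PN X u‖ ^ 2 + (36 * X * (1 + u) ^ (-2 : ℤ) + 9)) := by
        refine intervalIntegral.integral_mono_on_of_le_Ioo (by linarith) (hzc.intervalIntegrable _ _) ?_ ?_
        · exact ((hPc.const_mul _).intervalIntegrable _ _).add
            ((hinv.const_mul _).add intervalIntegrable_const)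
        · intro u hu
          exact hpw u ⟨hu.1, hu.2.le⟩
    _ = 2 * (∫ u in (0:ℝ)..(2 * T), ‖PN X u‖ ^ 2) +
        (36 * X * (∫ u in (0:ℝ)..(2 * T), (1 + u) ^ (-2 : ℤ)) + 9 * (2 * T)) := by
        rw [intervalIntegral.integral_add ((hPc.const_mul _).intervalIntegrable _ _)
          ((hinv.const_mul _).add intervalIntegrable_const),
          intervalIntegral.integral_add (hinv.const_mul _) intervalIntegrable_const,
          intervalIntegral.integral_const_mul, intervalIntegral.integral_const_mul,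
          intervalIntegral.integral_const]
        simp only [sub_zero, smul_eq_mul]
        ring
    _ ≤ 2 * (C3 * T * Real.log T) + (36 * (4 * T) * 1 + 9 * (2 * T)) := by
        have hn : 0 ≤ ∫ u in (0:ℝ)..(2 * T), (1 + u) ^ (-2 : ℤ) :=
          intervalIntegral.integral_nonneg (by linarith) fun u hu => by
            have : 0 < 1 + u := by linarith [hu.1]
            positivity
        gcongr
    _ = 2 * C3 * (T * Real.log T) + 162 * T := by ring
    _ ≤ 2 * C3 * (T * Real.log T) + 200 * (T * Real.log T) := by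
        have : T ≤ T * Real.log T := le_mul_of_one_le_right hT0.le hlog
        nlinarith
    _ = (2 * C3 + 200) * T * Real.log T := by ring

end

end Pool.Agent.H3.SQ
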