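import Pool.Graph.R_pool_sql_team_seeded_63374d34.N879.SQ.Asm3
import Pool.Graph.R_pool_sql_team_seeded_63374d34.N879.SQ.Asm4

set_option autoImplicit false

/-! Mean squares over all intervals, from the mean squares over the initial intervals. -/

namespace Pool.Agent.H3.SQ

open Complex Filter Topology MeasureTheory Set
open Pool.Agent.TH612.CF Pool.Agent.TH612.GS Pool.Agent.TH757.GS Pool.Agent.N879.SQ

noncomputable section

variable {k : ℕ}

lemma sh_cont (a : ℝ) : Continuous fun γ : Fin k ⊕ Fin k → ℝ => sh γ a := by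
  unfold sh
  fun_prop

lemma lint_shift {T a : ℝ} (ha0 : 0 ≤ a) (haT : a ≤ T) {G : (Fin k ⊕ Fin k → ℝ) → ENNReal} :
    ∫⁻ γ, G (sh γ a) ∂(mP (Fin k ⊕ Fin k) T) ≤ ∫⁻ γ, G γ ∂(mP (Fin k ⊕ Fin k) (2 * T)) := by
  have hT : 0 ≤ T := ha0.trans haT
  have e : ∀ R : ℝ, mP (Fin k ⊕ Fin k) R =
      volume.restrict (Set.pi univ fun _ : Fin k ⊕ Fin k => Icc (0:ℝ) R) := by
    intro R
    unfold mP
    rw [volume_pi, Measure.restrict_pi_pi]
  have hm : ∀ R : ℝ, MeasurableSet (Set.pi univ fun _ : Fin k ⊕ Fin k => Icc (0:ℝ) R) := fun R =>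
    MeasurableSet.univ_pi fun _ => measurableSet_Icc
  rw [e, e, ← lintegral_indicator (hm T), ← lintegral_indicator (hm (2 * T))]
  set v : Fin k ⊕ Fin k → ℝ := fun _ => a with hv
  have h1 : ∀ γ : Fin k ⊕ Fin k → ℝ, sh γ a = γ + v := fun γ => rfl
  rw [← lintegral_add_right_eq_self (fun γ => (Set.pi univ fun _ : Fin k ⊕ Fin k =>
    Icc (0:ℝ) (2 * T)).indicator (fun γ => G γ) γ) v]
  refine lintegral_mono fun γ => ?_
  by_cases hγ : γ ∈ Set.pi univ fun _ : Fin k ⊕ Fin k => Icc (0:ℝ) T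
  · have hγ2 : γ + v ∈ Set.pi univ fun _ : Fin k ⊕ Fin k => Icc (0:ℝ) (2 * T) := by
      intro i _
      have := hγ i (mem_univ i)
      simp only [Pi.add_apply, hv, mem_Icc] at this ⊢
      constructor <;> linarith [this.1, this.2]
    rw [indicator_of_mem hγ, indicator_of_mem hγ2, h1]
  · rw [indicator_of_notMem hγ]
    exact zero_le

lemma sep_shift {T a : ℝ} (ha0 : 0 ≤ a) (haT : a ≤ T) {γ : Fin k ⊕ Fin k → ℝ}
    (hγ : γ ∈ Sep2 k T) : sh γ a ∈ Sep k (2 * T) := by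
  refine ⟨fun i => ?_, fun p q hpq => ?_⟩
  · have := hγ.1 i
    unfold sh
    constructor <;> linarith [this.1, this.2]
  · have := hγ.2 p q hpq
    unfold sh
    rwa [add_sub_add_right_eq_sub]

lemma sep2_sep {T : ℝ} (hT : 0 ≤ T) {γ : Fin k ⊕ Fin k → ℝ}
    (hγ : γ ∈ Sep2 k T) : γ ∈ Sep k T := by
  refine ⟨hγ.1, fun p q hpq => le_trans ?_ (hγ.2 p q hpq)⟩
  exact Real.rpow_le_rpow hT (by linarith) (by norm_num)

/-- both kinds of mean squares, for functions which are invariant under translation -/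
lemma mk (f : (Fin k ⊕ Fin k → ℝ) → ℝ → ℂ)
    (htr : ∀ (γ : Fin k ⊕ Fin k → ℝ) (a t : ℝ), f (sh γ a) t = f γ (t + a)) (hfc : ∀ γ, Continuous (f γ))
    {ε C T₀ : ℝ} (hε : 0 < ε) (hC : 0 < C) (hT₀ : 4 ≤ T₀)
    (hMS : ∀ T S : ℝ, T₀ ≤ T → 0 ≤ S → S ≤ T → ∃ G : (Fin k ⊕ Fin k → ℝ) → ENNReal, Measurable G ∧
      (∀ γ ∈ Sep k T, ENNReal.ofReal (‖∫ t in (0:ℝ)..S, f γ t‖ ^ 2) ≤ G γ) ∧
      ∫⁻ γ, G γ ∂(mP (Fin k ⊕ Fin k) T) ≤ ENNReal.ofReal (C * S * T ^ (2 * k) * T ^ ε))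
    (hZ2 : S_Z2) {C' : ℝ} {B : ℕ} (hC' : 0 < C')
    (hbd : ∀ T : ℝ, T₀ ≤ T → ∀ γ ∈ Sep k T, ∀ t, ‖f γ t - Zg γ t‖ ≤ C' * Real.log T ^ B) :
    ∃ C T₀ : ℝ, 0 < C ∧ 4 ≤ T₀ ∧ ∀ (T : ℝ), T₀ ≤ T →
    (∀ a b : ℝ, 0 ≤ a → a ≤ b → b ≤ T → ∃ G : (Fin k ⊕ Fin k → ℝ) → ENNReal, Measurable G ∧
    (∀ γ ∈ Sep2 k T, ENNReal.ofReal (‖∫ t in a..b, f γ t‖ ^ 2) ≤ G γ) ∧
    ∫⁻ γ, G γ ∂(mP (Fin k ⊕ Fin k) T) ≤ ENNReal.ofReal (C * T ^ (2 * k) * T ^ ε * (b - a))) ∧
    ∀ a b : ℝ, 0 ≤ a → a ≤ b → b ≤ T → b ≤ a + 1 →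
      ∃ G : (Fin k ⊕ Fin k → ℝ) → ENNReal, Measurable G ∧
      (∀ γ ∈ Sep2 k T, ENNReal.ofReal ((∫ t in a..b, ‖f γ t‖) ^ 2) ≤ G γ) ∧
      ∫⁻ γ, G γ ∂(mP (Fin k ⊕ Fin k) T) ≤ ENNReal.ofReal (C * T ^ (2 * k) * T ^ ε) := by
  obtain ⟨C2, T2, hC2, hT2, h2⟩ := hZ2 k
  have ev1 := log_ev (2 * C2) (2 * k) hε
  have ev2 := log_ev (2 * C' ^ 2) (2 * B) hε
  obtain ⟨Te, hTe⟩ := eventually_atTop.1 (ev1.and ev2)
  refine ⟨C * 2 ^ (2 * k) * 2 ^ ε + 2, max T₀ (max Te T2), by positivity,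
    hT₀.trans (le_max_left _ _), fun T hT => ?_⟩
  have hTT0 : T₀ ≤ T := (le_max_left _ _).trans hT
  have hT' := (le_max_right _ _).trans hT
  obtain ⟨l1, l2⟩ := hTe T ((le_max_left _ _).trans hT')
  have hTT2 : T2 ≤ T := (le_max_right _ _).trans hT'
  have hT4 : 4 ≤ T := hT₀.trans hTT0
  have hTp : 0 < T := by linarith
  have hT1 : 1 ≤ T := by linarith
  have hlog : 0 ≤ Real.log T := Real.log_nonneg hT1
  have hTk : 0 < T ^ (2 * k) := by positivity
  have hTε : 0 < T ^ ε := by positivity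
  have h2ε : (0:ℝ) < 2 ^ ε := by positivity
  constructor
  · intro a b ha hab hb
    obtain ⟨G, hG, hG1, hG2⟩ := hMS (2 * T) (b - a) (by linarith) (by linarith) (by linarith)
    refine ⟨fun γ => G (sh γ a), hG.comp (sh_cont a).measurable, fun γ hγ => ?_, ?_⟩
    · have h := hG1 (sh γ a) (sep_shift ha (hab.trans hb) hγ)
      simp only [htr] at h
      rw [intervalIntegral.integral_comp_add_right (fun t => f γ t) a, zero_add, sub_add_cancel] at h
      exact h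
    · refine (lint_shift ha (hab.trans hb)).trans (hG2.trans (ENNReal.ofReal_le_ofReal ?_))
      have e1 : (2 * T) ^ ε = 2 ^ ε * T ^ ε := Real.mul_rpow (by norm_num) hTp.le
      rw [e1, mul_pow]
      have hba : 0 ≤ b - a := by linarith
      calc C * (b - a) * (2 ^ (2 * k) * T ^ (2 * k)) * (2 ^ ε * T ^ ε) =
          (C * 2 ^ (2 * k) * 2 ^ ε) * T ^ (2 * k) * T ^ ε * (b - a) := by ring
        _ ≤ (C * 2 ^ (2 * k) * 2 ^ ε + 2) * T ^ (2 * k) * T ^ ε * (b - a) := by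
          gcongr
          linarith
  · intro a b ha hab hb hb1
    have hm : Measurable fun γ : Fin k ⊕ Fin k → ℝ =>
        ENNReal.ofReal ((∫ t in a..b, ‖∏ j : Fin k, z (t + γ (Sum.inl j)) *
      (starRingEnd ℂ) (z (t + γ (Sum.inr j)))‖) ^ 2) :=
      ((intnorm_cont a b).pow 2).measurable.ennreal_ofReal
    refine ⟨fun γ => ENNReal.ofReal 2 * ENNReal.ofReal ((∫ t in a..b, ‖∏ j : Fin k, z (t + γ (Sum.inl j)) *
      (starRingEnd ℂ) (z (t + γ (Sum.inr j)))‖) ^ 2) + ENNReal.ofReal (2 * (C' * Real.log T ^ B) ^ 2),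
      (hm.const_mul _).add measurable_const, fun γ hγ => ?_, ?_⟩
    · beta_reduce
      rw [← ENNReal.ofReal_mul (by norm_num), ← ENNReal.ofReal_add (by positivity) (by positivity)]
      refine ENNReal.ofReal_le_ofReal ?_
      have hZc := Zg_cont γ
      have b1 : ∫ t in a..b, ‖f γ t‖ ≤ (∫ t in a..b, ‖Zg γ t‖) + C' * Real.log T ^ B := by
        calc ∫ t in a..b, ‖f γ t‖ ≤ ∫ t in a..b, (‖Zg γ t‖ + C' * Real.log T ^ B) := by
              refine intervalIntegral.integral_mono_on hab ((hfc γ).norm.intervalIntegrable _ _)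
                ((hZc.norm.add continuous_const).intervalIntegrable _ _) fun t _ => ?_
              have h3 := hbd T hTT0 γ (sep2_sep hTp.le hγ) t
              have h4 := norm_add_le (Zg γ t) (f γ t - Zg γ t)
              rw [add_sub_cancel] at h4
              linarith
          _ = (∫ t in a..b, ‖Zg γ t‖) + (b - a) * (C' * Real.log T ^ B) := by
              rw [intervalIntegral.integral_add (hZc.norm.intervalIntegrable _ _)
                (continuous_const.intervalIntegrable _ _), intervalIntegral.integral_const]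
              simp
          _ ≤ _ := by
              have : (b - a) * (C' * Real.log T ^ B) ≤ 1 * (C' * Real.log T ^ B) := by
                gcongr
                linarith
              linarith
      have b2 : 0 ≤ ∫ t in a..b, ‖f γ t‖ :=
        intervalIntegral.integral_nonneg hab fun _ _ => norm_nonneg _
      simp only [← Zg_fz]
      have b3 := pow_le_pow_left₀ b2 b1 2
      refine b3.trans ?_
      nlinarith [sq_nonneg ((∫ t in a..b, ‖Zg γ t‖) - C' * Real.log T ^ B)]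
    · rw [lintegral_add_left (hm.const_mul _), lintegral_const_mul _ hm, lintegral_const,
        As.mP_univ _ hTp.le]
      have hcard : Fintype.card (Fin k ⊕ Fin k) = 2 * k := by
        rw [Fintype.card_sum, Fintype.card_fin]; ring
      rw [hcard]
      have q1 := h2 T a b hTT2 ha hab hb
      have hba : (b - a) ^ 2 ≤ 1 := by
        have : 0 ≤ b - a := by linarith
        have : b - a ≤ 1 := by linarith
        nlinarith
      calc _ ≤ ENNReal.ofReal 2 * ENNReal.ofReal (C2 * (b - a) ^ 2 * Real.log T ^ (2 * k) * T ^ (2 * k)) +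
            ENNReal.ofReal (2 * (C' * Real.log T ^ B) ^ 2) * ENNReal.ofReal (T ^ (2 * k)) := by
            gcongr
        _ = ENNReal.ofReal (2 * (C2 * (b - a) ^ 2 * Real.log T ^ (2 * k) * T ^ (2 * k)) +
            2 * (C' * Real.log T ^ B) ^ 2 * T ^ (2 * k)) := by
            rw [← ENNReal.ofReal_mul (by norm_num), ← ENNReal.ofReal_mul (by positivity),
              ← ENNReal.ofReal_add (by positivity) (by positivity)]
        _ ≤ _ := by
            refine ENNReal.ofReal_le_ofReal ?_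
            have c1 : 2 * (C2 * (b - a) ^ 2 * Real.log T ^ (2 * k) * T ^ (2 * k)) ≤ T ^ ε * T ^ (2 * k) := by
              calc 2 * (C2 * (b - a) ^ 2 * Real.log T ^ (2 * k) * T ^ (2 * k)) =
                  (b - a) ^ 2 * ((2 * C2 * Real.log T ^ (2 * k)) * T ^ (2 * k)) := by ring
                _ ≤ 1 * (T ^ ε * T ^ (2 * k)) := by gcongr
                _ = _ := one_mul _
            have c2 : 2 * (C' * Real.log T ^ B) ^ 2 * T ^ (2 * k) ≤ T ^ ε * T ^ (2 * k) := by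
              have : 2 * (C' * Real.log T ^ B) ^ 2 = 2 * C' ^ 2 * Real.log T ^ (2 * B) := by ring
              rw [this]
              gcongr
            have c3 : 0 ≤ C * 2 ^ (2 * k) * 2 ^ ε * T ^ (2 * k) * T ^ ε := by positivity
            calc _ ≤ T ^ ε * T ^ (2 * k) + T ^ ε * T ^ (2 * k) := add_le_add c1 c2
              _ ≤ (C * 2 ^ (2 * k) * 2 ^ ε + 2) * T ^ (2 * k) * T ^ ε := by nlinarith

/-- the other terms of the recipe are small for separated shifts -/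
lemma ff_bd (hONE : S_ONE) (k : ℕ) : ∃ (C' T₀ : ℝ) (B : ℕ), 0 < C' ∧ 4 ≤ T₀ ∧ ∀ T : ℝ, T₀ ≤ T →
    ∀ γ ∈ Sep k T, ∀ t, ‖ff γ t - Zg γ t‖ ≤ C' * Real.log T ^ B := by
  obtain ⟨C7, T7, hC7, hT7, h7⟩ := hONE
  set P0 : ℝ := (Fintype.card (Equiv.Perm (Fin k ⊕ Fin k)) : ℝ) with hP0
  have hP0' : 0 ≤ P0 := Nat.cast_nonneg _
  have hBF := BF_nonneg k (1 / 8)
  refine ⟨P0 * (BF k (1 / 8) * C7 ^ (k ^ 2)) + 1, max 4 T7, k ^ 2, by positivity, le_max_left _ _,
    fun T hT γ hγ t => ?_⟩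
  have hT4 : 4 ≤ T := (le_max_left _ _).trans hT
  have hT1 : 1 ≤ T := by linarith
  have hlog : 0 ≤ Real.log T := Real.log_nonneg hT1
  have hone := (h7 T 1 ((le_max_right _ _).trans hT) le_rfl (by
    rw [Nat.cast_one]
    exact Real.one_le_rpow hT1 (by norm_num))).1
  have e1 : ff γ t - Zg γ t = -(((Nat.factorial k : ℂ) ^ 2)⁻¹ * Qs t (fun i => (γ i : ℂ))) := by
    unfold ff; ring
  rw [e1, norm_neg, norm_mul, Qs_zp]
  have h3 : ‖∑ π : Equiv.Perm (Fin k ⊕ Fin k), GG t (fun i => (γ i : ℂ)) π * zp γ π‖ ≤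
      P0 * ZB k C7 T := by
    calc _ ≤ ∑ π : Equiv.Perm (Fin k ⊕ Fin k), ‖GG t (fun i => (γ i : ℂ)) π * zp γ π‖ :=
          norm_sum_le _ _
      _ ≤ ∑ _π : Equiv.Perm (Fin k ⊕ Fin k), ZB k C7 T := by
          refine Finset.sum_le_sum fun π _ => ?_
          rw [norm_mul, norm_GG, one_mul]
          exact zp_bd (by linarith) hC7 hone hγ π
      _ = _ := by rw [Finset.sum_const, Finset.card_univ, nsmul_eq_mul]
  calc _ ≤ 1 * (P0 * ZB k C7 T) := by
        gcongr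
        exact inv_le_one
    _ = P0 * (BF k (1 / 8) * C7 ^ (k ^ 2)) * Real.log T ^ (k ^ 2) := by
        unfold ZB
        rw [mul_pow]; ring
    _ ≤ _ := by
        gcongr
        linarith

lemma fd_bd (hONE : S_ONE) (k : ℕ) : ∃ (C' T₀ : ℝ) (B : ℕ), 0 < C' ∧ 4 ≤ T₀ ∧ ∀ T : ℝ, T₀ ≤ T →
    ∀ γ ∈ Sep k T, ∀ t, ‖fd γ t - Zg γ t‖ ≤ C' * Real.log T ^ B := by
  obtain ⟨C7, T7, hC7, hT7, h7⟩ := hONE
  have hBF := BF_nonneg k (1 / 8)
  refine ⟨BF k (1 / 8) * C7 ^ (k ^ 2) + 1, max 4 T7, k ^ 2, by positivity, le_max_left _ _,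
    fun T hT γ hγ t => ?_⟩
  have hT4 : 4 ≤ T := (le_max_left _ _).trans hT
  have hT1 : 1 ≤ T := by linarith
  have hlog : 0 ≤ Real.log T := Real.log_nonneg hT1
  have hone := (h7 T 1 ((le_max_right _ _).trans hT) le_rfl (by
    rw [Nat.cast_one]
    exact Real.one_le_rpow hT1 (by norm_num))).1
  have e1 : fd γ t - Zg γ t = -zp γ 1 := by
    unfold fd zp zr
    simp
  rw [e1, norm_neg]
  calc _ ≤ ZB k C7 T := zp_bd (by linarith) hC7 hone hγ 1
    _ = (BF k (1 / 8) * C7 ^ (k ^ 2)) * Real.log T ^ (k ^ 2) := by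
        unfold ZB
        rw [mul_pow]; ring
    _ ≤ _ := by
        gcongr
        linarith

theorem t_MSI (hMSQ : S_MSQ) (hTRN : S_TRN) (hZ2 : S_Z2) (hONE : S_ONE) : S_MSI := by
  intro k ε hε
  obtain ⟨C, T₀, hC, hT₀, h⟩ := hMSQ k ε hε
  obtain ⟨C', T1, B, hC', hT1, h'⟩ := ff_bd hONE k
  exact mk ff (hTRN k) As.ff_cont (T₀ := max T₀ T1) hε hC (hT₀.trans (le_max_left _ _))
    (fun T S hT hS0 hS => h T S ((le_max_left _ _).trans hT) hS0 hS) hZ2 hC'
    (fun T hT => h' T ((le_max_right _ _).trans hT))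

theorem t_MID (hMSD : S_MSD) (hTRD : S_TRD) (hZ2 : S_Z2) (hONE : S_ONE) : S_MID := by
  intro k ε hε
  obtain ⟨C, T₀, hC, hT₀, h⟩ := hMSD k ε hε
  obtain ⟨C', T1, B, hC', hT1, h'⟩ := fd_bd hONE k
  exact mk fd (hTRD k) As.fd_cont (T₀ := max T₀ T1) hε hC (hT₀.trans (le_max_left _ _))
    (fun T S hT hS0 hS => h T S ((le_max_left _ _).trans hT) hS0 hS) hZ2 hC'
    (fun T hT => h' T ((le_max_right _ _).trans hT))

end

end Pool.Agent.H3.SQ
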