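import Pool.Agent.H3.SQ.Z1Q
import Pool.Agent.H3.SQ.SM
import Pool.Agent.H3.SQ.MSI
import Pool.Graph.R_seed8.TH811.GS.One
import Pool.Graph.R_pool_sql_team_seeded_63374d34.N879.SQ.Asm5
import Pool.Graph.R_pool_sql_team_seeded_63374d34.N879.SQ.Ak
import Pool.Graph.R_pool_sql_team_seeded_63374d34.N879.SQ.Chi2
import Pool.Graph.R_pool_sql_team_seeded_63374d34.N879.SQ.Cnt
import Pool.Graph.R_pool_sql_team_seeded_63374d34.N879.SQ.Cut
import Pool.Graph.R_pool_sql_team_seeded_63374d34.N879.SQ.Cz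
import Pool.Graph.R_pool_sql_team_seeded_63374d34.N879.SQ.Dtp
import Pool.Graph.R_pool_sql_team_seeded_63374d34.N879.SQ.Emd
import Pool.Graph.R_pool_sql_team_seeded_63374d34.N879.SQ.Off
import Pool.Graph.R_pool_sql_team_seeded_63374d34.N879.SQ.Rm
import Pool.Graph.R_pool_sql_team_seeded_63374d34.N879.SQ.Shp
import Pool.Graph.R_pool_sql_team_seeded_63374d34.N879.SQ.Tm2
import Pool.Graph.R_pool_sql_team_seeded_63374d34.N879.SQ.Tmw
import Pool.Graph.R_pool_sql_team_seeded_63374d34.N879.SQ.Zt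

set_option autoImplicit false

/-! All the parts together. -/

namespace Pool.Agent.H3.SQ

open Complex Filter Topology MeasureTheory Set
open Pool.Agent.TH612.CF Pool.Agent.TH612.GS Pool.Agent.TH757.GS Pool.Agent.N879.SQ

theorem aVQ : S_VQ := Pool.Agent.TH740.GF.t_VQ Pool.Agent.TH928.GS.t_MV
theorem aSM : S_SM := t_SM aVQ
theorem aOQ : S_OQ := Pool.Agent.TH236.GF.t_OQ Pool.Agent.TH321.GF.t_AQ
theorem aZ1Q : S_Z1Q := t_Z1Q Pool.Agent.TH521.GS.t_REP aOQ aSM aVQ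
theorem aZ2 : S_Z2 := t_Z2 Pool.Agent.TH521.GS.t_REP2 aSM
theorem aONE : S_ONE := Pool.Agent.TH811.GS.t_ONE Pool.Agent.TH928.GS.t_MV
theorem aINV : S_INV := t_INV
theorem aOFF : S_OFF := t_OFF t_TM2 t_CNT
theorem aCUT : S_CUT := t_CUT t_TMW
theorem aCZ : S_CZ := t_CZ t_SHP t_EMD (t_DTP t_ZT)
theorem aSW2 : S_SW2 := t_SW2 t_CHI2
theorem aMSQ : S_MSQ := t_MSQ aINV aONE aZ1Q aOFF aCUT aCZ aSW2
theorem aMSI : S_MSI := t_MSI aMSQ t_TRN aZ2 aONE
theorem aFIN : S_FIN := t_FIN t_RM aMSI t_NS2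
theorem aMSD : S_MSD := t_MSD aZ1Q aOFF aCUT aCZ
theorem aMID : S_MID := t_MID aMSD t_TRD aZ2 aONE
theorem aFID : S_FID := t_FID t_RM aMID t_NS2

end Pool.Agent.H3.SQ

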