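import Pool.Graph.R_pool_sql_team_seeded_63374d34.N879.SQ.Ak

set_option autoImplicit false

/-! The local factor as an integral over the circle, complex shifts. -/

namespace Pool.Agent.H3.SQ

open Complex MeasureTheory Pool.Agent.N879.SQ.Akaux Pool.Agent.TH612.CF Pool.Agent.W182.KO

theorem akg (k : ℕ) (a b : Fin k → ℂ) (ha : ∀ j, (a j).im < 1 / 2) (hb : ∀ j, -(1 / 2) < (b j).im)
    (p : ℕ) (hp : p.Prime) :
    ∑' m : ℕ, Pool.Agent.TH612.CF.lt a b p m =
    ∫ θ in (0:ℝ)..1, ∏ j : Fin k,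
      ((1 - exp (2 * Real.pi * I * θ) / (p : ℂ) ^ (1 / 2 + I * a j))⁻¹ *
        (1 - exp (-(2 * Real.pi * I * θ)) / (p : ℂ) ^ (1 / 2 - I * b j))⁻¹) := by
  have hp0 : (p : ℂ) ≠ 0 := by exact_mod_cast hp.ne_zero
  set x : Fin k → ℂ := fun j => (p : ℂ) ^ (-(1 / 2 + I * a j)) with hx
  set y : Fin k → ℂ := fun j => (p : ℂ) ^ (-(1 / 2 - I * b j)) with hy
  have hp1 : (1:ℝ) < p := by exact_mod_cast hp.one_lt
  have hx1 : ∀ j, ‖x j‖ < 1 := by
    intro j
    simp only [hx]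
    rw [Complex.norm_natCast_cpow_of_pos hp.pos]
    refine Real.rpow_lt_one_of_one_lt_of_neg hp1 ?_
    have e : (-(1 / 2 + I * a j)).re = -(1 / 2) + (a j).im := by simp; ring
    rw [e]; linarith [ha j]
  have hy1 : ∀ j, ‖y j‖ < 1 := by
    intro j
    simp only [hy]
    rw [Complex.norm_natCast_cpow_of_pos hp.pos]
    refine Real.rpow_lt_one_of_one_lt_of_neg hp1 ?_
    have e : (-(1 / 2 - I * b j)).re = -(1 / 2) - (b j).im := by simp; ring
    rw [e]; linarith [hb j]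
  have e1 : ∀ m : ℕ, Pool.Agent.TH612.CF.lt a b p m = hs k x m * hs k y m := by
    intro m
    have ex : hs k x m = ((p : ℂ) ^ (-(1 / 2) : ℂ)) ^ m *
        hs k (fun j => (p : ℂ) ^ (-(I * a j))) m := by
      rw [← hs_smul]
      congr 1
      funext j
      simp only [hx]
      rw [← Complex.cpow_add _ _ hp0]
      congr 1; ring
    have ey : hs k y m = ((p : ℂ) ^ (-(1 / 2) : ℂ)) ^ m *
        hs k (fun j => (p : ℂ) ^ (I * b j)) m := by
      rw [← hs_smul]
      congr 1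
      funext j
      simp only [hy]
      rw [← Complex.cpow_add _ _ hp0]
      congr 1; ring
    have ep : ((p : ℂ) ^ m)⁻¹ = ((p : ℂ) ^ (-(1 / 2) : ℂ)) ^ m * ((p : ℂ) ^ (-(1 / 2) : ℂ)) ^ m := by
      rw [← mul_pow, ← Complex.cpow_add _ _ hp0, ← inv_pow, ← Complex.cpow_neg_one]
      congr 2; norm_num
    unfold Pool.Agent.TH612.CF.lt
    rw [tau_hs _ hp, tau_hs _ hp, ex, ey, ep]
    ring
  rw [tsum_congr e1, ← pars _ _ (hs_sum k x hx1).1 (hs_sum k y hy1).1]
  refine intervalIntegral.integral_congr fun θ _ => ?_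
  have hw := norm_w θ
  have hw' := norm_w' θ
  have g1 : ∑' m, exp (2 * Real.pi * I * θ) ^ m * hs k x m =
      ∏ j, (1 - exp (2 * Real.pi * I * θ) / (p : ℂ) ^ (1 / 2 + I * a j))⁻¹ := by
    have h1 := (hs_sum k (fun j => exp (2 * Real.pi * I * θ) * x j) fun j => by
      rw [norm_mul, hw, one_mul]; exact hx1 j).2
    simp only [hs_smul] at h1
    rw [h1]
    refine Finset.prod_congr rfl fun j _ => ?_
    simp only [hx]
    rw [Complex.cpow_neg, ← div_eq_mul_inv]
  have g2 : ∑' m, exp (-(2 * Real.pi * I * θ)) ^ m * hs k y m =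
      ∏ j, (1 - exp (-(2 * Real.pi * I * θ)) / (p : ℂ) ^ (1 / 2 - I * b j))⁻¹ := by
    have h1 := (hs_sum k (fun j => exp (-(2 * Real.pi * I * θ)) * y j) fun j => by
      rw [norm_mul, hw', one_mul]; exact hy1 j).2
    simp only [hs_smul] at h1
    rw [h1]
    refine Finset.prod_congr rfl fun j _ => ?_
    simp only [hy]
    rw [Complex.cpow_neg, ← div_eq_mul_inv]
  rw [g1, g2, ← Finset.prod_mul_distrib]

end Pool.Agent.H3.SQ
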